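import Pool.Agent.H73.BT.Abn

set_option autoImplicit false

open scoped commutatorElement

namespace Pool.Agent.Results.MP_c971d3_al.FinitaryOnBlocks

/-- Let `G` be a perfect locally finite barely transitive `p`-group on the infinite set `Ω` (acting
faithfully or not), and let `K` be a proper subgroup containing a point stabiliser (so `G ⧸ K` is a
system of finite blocks). Then there is a normal subgroup `A` of `G`, larger than the
kernel `K.normalCore` of the action on `G ⧸ K`, all of whose elements move only finitely many points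
of `G ⧸ K`, with `A / K.normalCore` an elementary abelian `p`-group; in particular some element
moves at least one but only finitely many points of `G ⧸ K`. -/
theorem result (G : Type*) [Group G] (Ω : Type*) [MulAction G Ω] [Infinite Ω]
    [MulAction.IsPretransitive G Ω]
    (hBT : ∀ K : Subgroup G, K ≠ ⊤ → ∀ ω : Ω, (Set.range (fun k : K => (k : G) • ω)).Finite)
    (hLF : ∀ s : Set G, s.Finite → ((Subgroup.closure s : Subgroup G) : Set G).Finite)
    (p : ℕ) (hp : p.Prime) (hpG : IsPGroup p G) (hperf : commutator G = ⊤) (ω : Ω)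
    (K : Subgroup G) (hK : K ≠ ⊤) (hH : MulAction.stabilizer G ω ≤ K) :
    ∃ A : Subgroup G, A.Normal ∧ K.normalCore < A ∧
      (∀ a ∈ A, {y : G ⧸ K | a • y ≠ y}.Finite) ∧
      (∀ a ∈ A, ∀ b ∈ A, ⁅a, b⁆ ∈ K.normalCore) ∧ (∀ a ∈ A, a ^ p ∈ K.normalCore) := by
  have c : Pool.Agent.H80.BT.Ctx G Ω p := ⟨inferInstance, inferInstance, hBT, hLF, hperf, hp, hpG⟩
  obtain ⟨A, h1, h2, h3, h4, h5, h6⟩ := Pool.Agent.H73.BT.abn c ω K hK hH
  refine ⟨A, h1, lt_of_le_of_ne h2 ?_, h4, h5, h6⟩
  intro h
  exact h3 (h ▸ Subgroup.normalCore_le K)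

end Pool.Agent.Results.MP_c971d3_al.FinitaryOnBlocks
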