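import Pool.Agent.H73.BT.ThL

set_option autoImplicit false

namespace Pool.Agent.Results.MP_c971d3_al.NoCosetIdentity

/-- In a perfect locally finite barely transitive `p`-group no product of cosets of the pointwise
stabiliser of a finite set satisfies a nontrivial group identity, even modulo a proper normal
subgroup: for every proper normal subgroup `N`, finite set `Δ`, elements `g 1, ..., g k` and every
nontrivial element `w` of the free group on `k` letters there are `h 1, ..., h k` fixing `Δ` pointwise
with `w(g 1 * h 1, ..., g k * h k) ∉ N`. -/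
theorem result (G : Type*) [Group G] (Ω : Type*) [MulAction G Ω] [Infinite Ω]
    [MulAction.IsPretransitive G Ω]
    (hBT : ∀ K : Subgroup G, K ≠ ⊤ → ∀ ω : Ω, (Set.range (fun k : K => (k : G) • ω)).Finite)
    (hLF : ∀ s : Set G, s.Finite → ((Subgroup.closure s : Subgroup G) : Set G).Finite)
    (p : ℕ) (hp : p.Prime) (hpG : IsPGroup p G) (hperf : commutator G = ⊤)
    (N : Subgroup G) [N.Normal] (hN : N ≠ ⊤) (Δ : Set Ω) (hΔ : Δ.Finite)
    (k : ℕ) (g : Fin k → G) (w : FreeGroup (Fin k)) (hw : w ≠ 1) :
    ∃ h : Fin k → G, (∀ i, ∀ ω ∈ Δ, h i • ω = ω) ∧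
      FreeGroup.lift (fun i => g i * h i) w ∉ N :=
  Pool.Agent.H73.BT.theoremL (p := p) ⟨inferInstance, inferInstance, hBT, hLF, hperf, hp, hpG⟩
    inferInstance hN hΔ g w hw

end Pool.Agent.Results.MP_c971d3_al.NoCosetIdentity
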