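import Pool.Agent.H73.BT.Rts

set_option autoImplicit false

namespace Pool.Agent.Results.MP_c971d3_al.RootsOfProper

/-- In a perfect locally finite barely transitive `p`-group the `m`-th roots of the elements of a proper
subgroup lie in a proper subgroup: for every proper subgroup `C` and every `m ≠ 0` there is a proper
subgroup `D` containing all `x` with `x ^ m ∈ C`. -/
theorem result (G : Type*) [Group G] (Ω : Type*) [MulAction G Ω] [Infinite Ω]
    [MulAction.IsPretransitive G Ω]
    (hBT : ∀ K : Subgroup G, K ≠ ⊤ → ∀ ω : Ω, (Set.range (fun k : K => (k : G) • ω)).Finite)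
    (hLF : ∀ s : Set G, s.Finite → ((Subgroup.closure s : Subgroup G) : Set G).Finite)
    (p : ℕ) (hp : p.Prime) (hpG : IsPGroup p G) (hperf : commutator G = ⊤)
    (C : Subgroup G) (hC : C ≠ ⊤) (m : ℕ) (hm : m ≠ 0) :
    ∃ D : Subgroup G, D ≠ ⊤ ∧ ∀ x : G, x ^ m ∈ C → x ∈ D :=
  Pool.Agent.H73.BT.roots (p := p) ⟨inferInstance, inferInstance, hBT, hLF, hperf, hp, hpG⟩ C hC m hm

end Pool.Agent.Results.MP_c971d3_al.RootsOfProper
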