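import Pool.Agent.H73.BT.Mea

set_option autoImplicit false

open scoped Pointwise

namespace Pool.Agent.Results.MP_c971d3_al.SparseSupports

/-- In a perfect locally finite barely transitive `p`-group the support of every element has density
zero: (1) for every `x` and every `ε > 0` there is a finite subgroup `C` such that `x` moves at most
`ε * |O|` of the points of every finite `C`-invariant set `O` of points; (2) every `G`-invariant finitely
additive probability measure on the set of all subsets of `Ω` vanishes on the support of `x`. -/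
theorem result (G : Type*) [Group G] (Ω : Type*) [MulAction G Ω] [Infinite Ω]
    [MulAction.IsPretransitive G Ω]
    (hBT : ∀ K : Subgroup G, K ≠ ⊤ → ∀ ω : Ω, (Set.range (fun k : K => (k : G) • ω)).Finite)
    (hLF : ∀ s : Set G, s.Finite → ((Subgroup.closure s : Subgroup G) : Set G).Finite)
    (p : ℕ) (hp : p.Prime) (hpG : IsPGroup p G) (hperf : commutator G = ⊤) (x : G) :
    (∀ ε : ℝ, 0 < ε → ∃ C : Subgroup G, (C : Set G).Finite ∧
      ∀ O : Set Ω, O.Finite → (∀ c ∈ C, ∀ β ∈ O, c • β ∈ O) →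
        ({β ∈ O | x • β ≠ β}.ncard : ℝ) ≤ ε * (O.ncard : ℝ)) ∧
    (∀ μ : Set Ω → ℝ, (∀ s, 0 ≤ μ s) → μ Set.univ = 1 →
      (∀ s t, Disjoint s t → μ (s ∪ t) = μ s + μ t) →
      (∀ (g : G) (s : Set Ω), μ ((fun β => g • β) '' s) = μ s) →
        μ {β : Ω | x • β ≠ β} = 0) := by
  have c : Pool.Agent.H80.BT.Ctx G Ω p := ⟨inferInstance, inferInstance, hBT, hLF, hperf, hp, hpG⟩
  refine ⟨fun ε hε => ?_, fun μ h0 h1 hadd hinv =>
    Pool.Agent.H73.BT.mean_zero c x μ h0 h1 hadd hinv⟩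
  obtain ⟨N, hN⟩ := exists_nat_gt (1 / ε)
  rw [div_lt_iff₀ hε] at hN
  obtain ⟨Γ, hΓ, hO⟩ := Pool.Agent.H73.BT.dens c x N
  refine ⟨Subgroup.closure Γ, hLF Γ hΓ, fun O hOf hOi => ?_⟩
  have h2 := hO O hOf fun γ hγ β hβ => hOi γ (Subgroup.subset_closure hγ) β hβ
  have h3 : (N : ℝ) * ({β ∈ O | x • β ≠ β}.ncard : ℝ) ≤ (O.ncard : ℝ) := by exact_mod_cast h2
  have h4 : (0 : ℝ) ≤ ({β ∈ O | x • β ≠ β}.ncard : ℝ) := Nat.cast_nonneg _
  have h5 : (1 : ℝ) * ({β ∈ O | x • β ≠ β}.ncard : ℝ) ≤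
      (N * ε) * ({β ∈ O | x • β ≠ β}.ncard : ℝ) := mul_le_mul_of_nonneg_right hN.le h4
  calc ({β ∈ O | x • β ≠ β}.ncard : ℝ)
      ≤ (N * ε) * ({β ∈ O | x • β ≠ β}.ncard : ℝ) := by linarith
    _ = ε * (N * ({β ∈ O | x • β ≠ β}.ncard : ℝ)) := by ring
    _ ≤ ε * (O.ncard : ℝ) := mul_le_mul_of_nonneg_left h3 hε.le

end Pool.Agent.Results.MP_c971d3_al.SparseSupports
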